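import Pool.Agent.H86.CN.Gf

/-!
# Abs: the logarithms of the units `ξ_u`

Apply `φ ∘ s b` (`s b = (galEquivZMod f K).symm b`) to `hξ`: `s b ζ = ζ^(b.val.val)` (`galEquivZMod_apply_of_pow_eq`), `φ ζ = exp(2πi/f)`, so `φ(s b (sq2 ζ u)) = (1 - E^(bu))(1 - E^(-bu))` with `E = exp(2πi/f)`, of norm `‖1 - exp(2πi (b.val.val * u.val.val)/f)‖²` (the second factor is the complex conjugate of the
first); by `gf_nat` its logarithm is `2 gf f (b * u)`; the same for `u = 1`: `2 gf f b` (`(1 : (ZMod f)ˣ).val.val = 1`, `f > 2`; or `gf_nat` for it). Norms are not `0`: `ζ^(bu) ≠ 1` (`u`, `b` units, `f > 2`), or argue with `ξ ≠ 0` and `sq2 ζ 1 ≠ 0`. So `2 log (e b ξ) + 2 gf f b = 2 gf f (b u)`.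
-/

set_option autoImplicit false

open NumberField

namespace H86CN

theorem Abs_sq2 (f : ℕ) [NeZero f] (K : Type*) [Field K] [NumberField K] [IsCyclotomicExtension {f} ℚ K]
    (ζ : K) (hζ : IsPrimitiveRoot ζ f) (φ : K →+* ℂ)
    (hφ : φ ζ = Complex.exp (2 * Real.pi * Complex.I / f)) (u b : (ZMod f)ˣ) :
    Real.log ‖φ ((IsCyclotomicExtension.Rat.galEquivZMod f K).symm b (sq2 ζ u))‖ = 2 * gf f (b * u) := by
  have hs : (IsCyclotomicExtension.Rat.galEquivZMod f K).symm b ζ = ζ ^ b.val.val := by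
    have h := IsCyclotomicExtension.Rat.galEquivZMod_apply_of_pow_eq f K
      ((IsCyclotomicExtension.Rat.galEquivZMod f K).symm b) hζ.pow_eq_one
    rw [MulEquiv.apply_symm_apply] at h
    exact h
  have hfs : φ ((IsCyclotomicExtension.Rat.galEquivZMod f K).symm b ζ) ^ u.val.val =
      Complex.exp (2 * Real.pi * Complex.I * ((b.val.val * u.val.val : ℕ) : ℂ) / (f : ℂ)) := by
    rw [hs, map_pow, hφ, ← pow_mul, ← Complex.exp_nat_mul]
    congr 1
    ring
  have hexp : φ ((IsCyclotomicExtension.Rat.galEquivZMod f K).symm b (sq2 ζ u)) =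
      (1 - φ ((IsCyclotomicExtension.Rat.galEquivZMod f K).symm b ζ) ^ u.val.val) *
      (1 - (φ ((IsCyclotomicExtension.Rat.galEquivZMod f K).symm b ζ) ^ u.val.val)⁻¹) := by
    unfold sq2
    rw [map_mul, map_mul, map_sub, map_sub, map_sub, map_sub, map_one, map_one, map_pow, map_pow,
      map_pow, map_pow, map_inv₀, map_inv₀, inv_pow]
  rw [hexp, hfs]
  have hconj : (Complex.exp (2 * Real.pi * Complex.I * ((b.val.val * u.val.val : ℕ) : ℂ) / (f : ℂ)))⁻¹ =
      (starRingEnd ℂ)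
        (Complex.exp (2 * Real.pi * Complex.I * ((b.val.val * u.val.val : ℕ) : ℂ) / (f : ℂ))) := by
    rw [← Complex.exp_conj, ← Complex.exp_neg]
    congr 1
    simp only [map_div₀, map_mul, Complex.conj_I, Complex.conj_ofReal, map_ofNat, map_natCast]
    ring
  rw [hconj]
  have h3 : (1 : ℂ) - (starRingEnd ℂ)
      (Complex.exp (2 * Real.pi * Complex.I * ((b.val.val * u.val.val : ℕ) : ℂ) / (f : ℂ))) =
      (starRingEnd ℂ)
        (1 - Complex.exp (2 * Real.pi * Complex.I * ((b.val.val * u.val.val : ℕ) : ℂ) / (f : ℂ))) := by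
    rw [map_sub, map_one]
  rw [h3, norm_mul, Complex.norm_conj, ← pow_two, Real.log_pow, gf_nat (b * u) (b.val.val * u.val.val) ?_]
  · norm_num
  · rw [Nat.cast_mul, ZMod.natCast_val, ZMod.cast_id', id, ZMod.natCast_val, ZMod.cast_id', id, Units.val_mul]

theorem logxi (f : ℕ) [NeZero f] (hf : 2 < f) (K F : Type*) [Field K] [NumberField K] [IsCyclotomicExtension {f} ℚ K]
    [Field F] [NumberField F] [Algebra F K] (ζ : K) (hζ : IsPrimitiveRoot ζ f) (φ : K →+* ℂ)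
    (hφ : φ ζ = Complex.exp (2 * Real.pi * Complex.I / f)) (e : Qf f ≃ InfinitePlace F)
    (he : ∀ (a : (ZMod f)ˣ) (x : F), e (a : Qf f) x =
      ‖φ ((IsCyclotomicExtension.Rat.galEquivZMod f K).symm a (algebraMap F K x))‖)
    (u b : (ZMod f)ˣ) (ξ : (𝓞 F)ˣ) (hξ : algebraMap F K ((ξ : 𝓞 F) : F) ^ 2 * sq2 ζ (1 : (ZMod f)ˣ) = sq2 ζ u) :
    Real.log (e (b : Qf f) ((ξ : 𝓞 F) : F)) = gf f (b * u) - gf f b := by
  have hone : (1 : (ZMod f)ˣ).val.val = 1 := by
    have : Fact (1 < f) := ⟨by omega⟩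
    rw [Units.val_one]
    exact ZMod.val_one f
  have hζ1 : ζ ≠ 1 := hζ.ne_one (by omega)
  have hsq : sq2 ζ (1 : (ZMod f)ˣ) ≠ 0 := by
    unfold sq2
    rw [hone, pow_one, pow_one]
    refine mul_ne_zero (sub_ne_zero.2 hζ1.symm) (sub_ne_zero.2 ?_)
    intro h
    exact hζ1 (inv_eq_one.1 h.symm)
  have hξ0 : algebraMap F K ((ξ : 𝓞 F) : F) ≠ 0 := by
    rw [map_ne_zero]
    exact RingOfIntegers.coe_ne_zero_iff.2 ξ.ne_zero
  have key := congrArg (fun x => Real.log ‖φ ((IsCyclotomicExtension.Rat.galEquivZMod f K).symm b x)‖) hξ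
  rw [map_mul, map_mul, map_pow, map_pow, norm_mul, norm_pow, Real.log_mul, Real.log_pow,
    Abs_sq2 f K ζ hζ φ hφ 1 b, Abs_sq2 f K ζ hζ φ hφ u b, mul_one] at key
  · rw [he]
    push_cast at key
    linarith
  · refine pow_ne_zero 2 ?_
    rw [norm_ne_zero_iff, map_ne_zero, map_ne_zero]
    exact hξ0
  · rw [norm_ne_zero_iff, map_ne_zero, map_ne_zero]
    exact hsq

end H86CN
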