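import Mathlib

/-!
# Dis: the discriminant of `F` is a power of `p`

`discr F ^ [K : F]` divides `discr K` (`NumberField.discr_dvd_discr` or the tower formula for the different; search in `Mathlib/NumberTheory/NumberField/Discriminant`), and `|discr K|` is a power of `p` (`IsCyclotomicExtension.Rat.natAbs_discr` or `absdiscr_prime_pow`, see `Mathlib/NumberTheory/NumberField/Cyclotomic/Basic.lean`,
theorem `discr_prime_pow_succ`). A divisor of a power of `p` is a power of `p` (`Nat.dvd_prime_pow`).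
-/

set_option autoImplicit false

open NumberField

namespace H86CN

theorem dis (p n : ℕ) [Fact p.Prime] (K F : Type*) [Field K] [NumberField K] [IsCyclotomicExtension {p ^ (n + 1)} ℚ K] [Field F]
    [NumberField F] [Algebra F K] : ∃ a : ℕ, (discr F).natAbs = p ^ a := by
  have h1 : discr F ∣ discr K := discr_dvd_discr F K
  have h2 : discr K = (-1) ^ (p ^ n * (p - 1) / 2) * (p : ℤ) ^ (p ^ n * ((p - 1) * (n + 1) - 1)) :=
    IsCyclotomicExtension.Rat.discr_prime_pow_succ p n K
  have h3 : (discr F).natAbs ∣ p ^ (p ^ n * ((p - 1) * (n + 1) - 1)) := by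
    have h4 := Int.natAbs_dvd_natAbs.2 h1
    rw [h2, Int.natAbs_mul, Int.natAbs_pow, Int.natAbs_pow, Int.natAbs_neg, Int.natAbs_one,
      one_pow, one_mul, Int.natAbs_natCast] at h4
    exact h4
  obtain ⟨a, _, ha⟩ := (Nat.dvd_prime_pow Fact.out).1 h3
  exact ⟨a, ha⟩

theorem con (p n : ℕ) [Fact p.Prime] (S : Finset (DirichletCharacter ℂ (p ^ (n + 1)))) : ∃ b : ℕ, ∏ χ ∈ S, χ.conductor = p ^ b := by
  have h1 : ∀ χ : DirichletCharacter ℂ (p ^ (n + 1)), ∃ b : ℕ, χ.conductor = p ^ b := by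
    intro χ
    obtain ⟨a, _, ha⟩ := (Nat.dvd_prime_pow Fact.out).1 χ.conductor_dvd_level
    exact ⟨a, ha⟩
  choose b hb using h1
  refine ⟨∑ χ ∈ S, b χ, ?_⟩
  rw [← Finset.prod_pow_eq_pow_sum]
  exact Finset.prod_congr rfl fun χ _ => hb χ

end H86CN
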