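import Pool.Agent.H86.CN.Df

/-!
# Idx: the group of cyclotomic units

`T = Subgroup.closure (Set.range fam) ⊔ Units.torsion F`. `sq2 ζ 1 ≠ 0` (`ζ ≠ 1`, `f > 2`). Elements of `(𝓞 F)ˣ` with the same square differ by a sign, and `-1 ∈ torsion`.
(0) `sq2 ζ (-u) = sq2 ζ u` (`ζ^f = 1`, `(-u).val.val = f - u.val.val`), so `sq2 ζ u` depends on the class in `Qf f` only; (1) every `ξ u` is in `T`: if the class of `u` is not `1`, `fam i = ξ u'` with `ξ u' ^ 2 = ξ u ^ 2` (`hξ`, injectivity of `algebraMap`, cancel `sq2 ζ 1`), so `ξ u = ± ξ u'`; if it is `1`, `ξ u ^ 2 = 1`,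
so `ξ u ∈ torsion` (`CommGroup.mem_torsion`, `isOfFinOrder_iff_pow_eq_one`). (2) `Cy ≤ T`: by `Subgroup.closure_induction` every `v` in the closure of `{v | v sq2 ζ 1 = sq2 ζ u}` is `η²` with `η ∈ T` (the generators are `ξ u ^ 2`; products, inverses); for `ε ∈ Cy`: `ε² = η²`, `ε = ± η`. (3) `T ≤ Cy`: `fam i ^ 2 = ξ u ^ 2` is a generator;
`torsion F`: all elements have square `1` (`F` totally real: torsion elements are `± 1`; `NumberField.Units` facts for a real place: `torsion_eq_one_or_neg_one_of_odd_finrank` is not general, use a real embedding `F →+* ℝ`: a real number of finite order is `± 1`).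
`idx`: `Subgroup.index` of `Cy` by `NumberField.Units.regOfFamily_div_regulator`.
-/

set_option autoImplicit false

open NumberField

namespace H86CN

theorem Idx_one (f : ℕ) [NeZero f] (hf : 2 < f) : ((1 : (ZMod f)ˣ) : ZMod f).val = 1 := by
  have : Fact (1 < f) := ⟨by omega⟩
  rw [Units.val_one, ZMod.val_one]

theorem Idx_ne (f : ℕ) [NeZero f] (hf : 2 < f) (K : Type*) [Field K] (ζ : K)
    (hζ : IsPrimitiveRoot ζ f) : sq2 ζ (1 : (ZMod f)ˣ) ≠ 0 := by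
  have h1 : ζ ≠ 1 := hζ.ne_one (by omega)
  have h2 : ζ⁻¹ ≠ 1 := by
    intro h
    exact h1 (by rw [← inv_inv ζ, h, inv_one])
  unfold sq2
  rw [Idx_one f hf, pow_one, pow_one]
  exact mul_ne_zero (sub_ne_zero.mpr (Ne.symm h1)) (sub_ne_zero.mpr (Ne.symm h2))

theorem Idx_neg (f : ℕ) [NeZero f] (hf : 2 < f) (K : Type*) [Field K] (ζ : K)
    (hζ : IsPrimitiveRoot ζ f) (u : (ZMod f)ˣ) : sq2 ζ (-u) = sq2 ζ u := by
  have : Fact (1 < f) := ⟨by omega⟩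
  have h0 : (u : ZMod f) ≠ 0 := u.ne_zero
  have hv : ((-u : (ZMod f)ˣ) : ZMod f).val = f - (u : ZMod f).val := by
    rw [Units.val_neg, ZMod.neg_val, if_neg h0]
  have hlt : (u : ZMod f).val ≤ f := (ZMod.val_lt _).le
  have hz0 : ζ ≠ 0 := hζ.ne_zero (by omega)
  have e1 : ζ ^ (f - (u : ZMod f).val) = (ζ⁻¹) ^ (u : ZMod f).val := by
    rw [inv_pow]
    apply eq_inv_of_mul_eq_one_left
    rw [← pow_add, Nat.sub_add_cancel hlt, hζ.pow_eq_one]
  have e2 : (ζ⁻¹) ^ (f - (u : ZMod f).val) = ζ ^ (u : ZMod f).val := by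
    rw [inv_pow]
    rw [inv_eq_iff_eq_inv, e1, inv_pow]
  unfold sq2
  rw [hv, e1, e2, mul_comm]

theorem Idx_cls (f : ℕ) [NeZero f] (hf : 2 < f) (K : Type*) [Field K] (ζ : K)
    (hζ : IsPrimitiveRoot ζ f) (u u' : (ZMod f)ˣ) (h : (u : Qf f) = u') :
    sq2 ζ u = sq2 ζ u' := by
  have h1 : u⁻¹ * u' ∈ Subgroup.zpowers (-1 : (ZMod f)ˣ) := QuotientGroup.eq.mp h
  obtain ⟨k, hk⟩ := Subgroup.mem_zpowers_iff.mp h1
  have h2 : u' = u * (-1) ^ k := by rw [hk, mul_inv_cancel_left]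
  rcases Int.even_or_odd k with he | ho
  · rw [he.neg_one_zpow, mul_one] at h2
    rw [h2]
  · rw [ho.neg_one_zpow, mul_neg, mul_one] at h2
    rw [h2, Idx_neg f hf K ζ hζ]

theorem Idx_pm (F : Type*) [Field F] [NumberField F] (v w : (𝓞 F)ˣ) (h : v ^ 2 = w ^ 2) :
    v = w ∨ v = -w := by
  have h1 : ((v : 𝓞 F)) ^ 2 = (w : 𝓞 F) ^ 2 := by
    have := congrArg (fun x : (𝓞 F)ˣ => (x : 𝓞 F)) h
    simpa using this
  rcases sq_eq_sq_iff_eq_or_eq_neg.mp h1 with h2 | h2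
  · exact Or.inl (Units.ext h2)
  · exact Or.inr (Units.ext (by rw [Units.val_neg]; exact h2))

theorem Idx_tor (F : Type*) [Field F] [NumberField F] (v : (𝓞 F)ˣ) (h : v ^ 2 = 1) :
    v ∈ Units.torsion F := by
  rw [Units.torsion, CommGroup.mem_torsion, isOfFinOrder_iff_pow_eq_one]
  exact ⟨2, by norm_num, h⟩

theorem Idx_negone (F : Type*) [Field F] [NumberField F] : (-1 : (𝓞 F)ˣ) ∈ Units.torsion F :=
  Idx_tor F _ (by rw [neg_one_sq])

theorem Idx_tor2 (F : Type*) [Field F] [NumberField F] [IsTotallyReal F] (v : (𝓞 F)ˣ)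
    (h : v ∈ Units.torsion F) : v ^ 2 = 1 := by
  rw [Units.torsion, CommGroup.mem_torsion, isOfFinOrder_iff_pow_eq_one] at h
  obtain ⟨n, hn, h⟩ := h
  obtain ⟨w⟩ : Nonempty (InfinitePlace F) := inferInstance
  have hw : w.IsReal := IsTotallyReal.isReal w
  let σ : F →+* ℝ := InfinitePlace.embedding_of_isReal hw
  have h1 : (σ ((v : 𝓞 F) : F)) ^ n = 1 := by
    rw [← map_pow]
    have : (((v : 𝓞 F) : F)) ^ n = 1 := by
      have h2 := congrArg (fun x : (𝓞 F)ˣ => ((x : 𝓞 F) : F)) h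
      simpa using h2
    rw [this, map_one]
  have h2 : |σ ((v : 𝓞 F) : F)| = 1 := by
    have h3 : |σ ((v : 𝓞 F) : F)| ^ n = 1 := by rw [← abs_pow, h1, abs_one]
    exact (pow_eq_one_iff_of_nonneg (abs_nonneg _) hn.ne').mp h3
  have h3 : (σ ((v : 𝓞 F) : F)) ^ 2 = 1 := by
    rw [← sq_abs, h2, one_pow]
  have h4 : (((v : 𝓞 F) : F)) ^ 2 = 1 := by
    apply σ.injective
    rw [map_pow, h3, map_one]
  apply Units.ext
  apply RingOfIntegers.ext
  simpa using h4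

theorem Idx_inj (K F : Type*) [Field K] [NumberField K] [Field F] [NumberField F] [Algebra F K]
    (v w : (𝓞 F)ˣ) (h : algebraMap F K ((v : 𝓞 F) : F) = algebraMap F K ((w : 𝓞 F) : F)) :
    v = w := by
  apply Units.ext
  apply RingOfIntegers.ext
  exact (algebraMap F K).injective h

theorem cy_eq (f : ℕ) [NeZero f] (hf : 2 < f) (K F : Type*) [Field K] [NumberField K] [Field F] [NumberField F] [Algebra F K]
    [IsTotallyReal F] (ζ : K) (hζ : IsPrimitiveRoot ζ f) (ξ : (ZMod f)ˣ → (𝓞 F)ˣ)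
    (hξ : ∀ u : (ZMod f)ˣ, algebraMap F K ((ξ u : 𝓞 F) : F) ^ 2 * sq2 ζ (1 : (ZMod f)ˣ) = sq2 ζ u)
    (fam : Fin (Units.rank F) → (𝓞 F)ˣ) (h1 : ∀ i, ∃ u, fam i = ξ u)
    (h2 : ∀ u : (ZMod f)ˣ, (u : Qf f) ≠ 1 → ∃ i, ∃ u' : (ZMod f)ˣ, (u' : Qf f) = u ∧ fam i = ξ u') :
    Cy F K ζ f = Subgroup.closure (Set.range fam) ⊔ Units.torsion F := by
  have hs1 := Idx_ne f hf K ζ hζ
  set T := Subgroup.closure (Set.range fam) ⊔ Units.torsion F with hT
  have hTt : Units.torsion F ≤ T := le_sup_right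
  have hTf : ∀ i, fam i ∈ T := fun i =>
    (le_sup_left : Subgroup.closure (Set.range fam) ≤ T) (Subgroup.subset_closure ⟨i, rfl⟩)
  have hpm : ∀ v w : (𝓞 F)ˣ, v ^ 2 = w ^ 2 → w ∈ T → v ∈ T := by
    intro v w h hw
    rcases Idx_pm F v w h with rfl | rfl
    · exact hw
    · have : -w = (-1) * w := by rw [neg_one_mul]
      rw [this]
      exact T.mul_mem (hTt (Idx_negone F)) hw
  have hcast2 : ∀ v : (𝓞 F)ˣ, algebraMap F K (((v ^ 2 : (𝓞 F)ˣ) : 𝓞 F) : F) =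
      algebraMap F K ((v : 𝓞 F) : F) ^ 2 := by
    intro v
    simp
  -- squares of xi with equal classes
  have hxi2 : ∀ u u' : (ZMod f)ˣ, (u : Qf f) = u' → ξ u ^ 2 = ξ u' ^ 2 := by
    intro u u' h
    apply Idx_inj K F
    rw [hcast2, hcast2]
    apply mul_right_cancel₀ hs1
    rw [hξ, hξ, Idx_cls f hf K ζ hζ u u' h]
  -- (1)
  have hxiT : ∀ u : (ZMod f)ˣ, ξ u ∈ T := by
    intro u
    by_cases hu : (u : Qf f) = 1
    · have h3 : ξ u ^ 2 = ξ 1 ^ 2 := hxi2 u 1 (by rw [hu]; rfl)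
      have h4 : ξ 1 ^ 2 = 1 := by
        apply Idx_inj K F
        rw [hcast2]
        apply mul_right_cancel₀ hs1
        rw [hξ]
        simp
      exact hTt (Idx_tor F _ (h3.trans h4))
    · obtain ⟨i, u', hu', hi⟩ := h2 u hu
      refine hpm (ξ u) (fam i) ?_ (hTf i)
      rw [hi]
      exact hxi2 u u' hu'.symm
  apply le_antisymm
  · intro ε hε
    have h3 : ε ^ 2 ∈ Subgroup.closure {v : (𝓞 F)ˣ | ∃ u : (ZMod f)ˣ,
        algebraMap F K ((v : 𝓞 F) : F) * sq2 ζ (1 : (ZMod f)ˣ) = sq2 ζ u} := hε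
    have h4 : ∀ v ∈ Subgroup.closure {v : (𝓞 F)ˣ | ∃ u : (ZMod f)ˣ,
        algebraMap F K ((v : 𝓞 F) : F) * sq2 ζ (1 : (ZMod f)ˣ) = sq2 ζ u},
        ∃ η ∈ T, v = η ^ 2 := by
      intro v hv
      induction hv using Subgroup.closure_induction with
      | mem x hx =>
        obtain ⟨u, hu⟩ := hx
        refine ⟨ξ u, hxiT u, ?_⟩
        apply Idx_inj K F
        rw [hcast2]
        apply mul_right_cancel₀ hs1
        rw [hu, hξ]
      | one => exact ⟨1, T.one_mem, by rw [one_pow]⟩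
      | mul x y _ _ hx hy =>
        obtain ⟨a, ha, rfl⟩ := hx
        obtain ⟨b, hb, rfl⟩ := hy
        exact ⟨a * b, T.mul_mem ha hb, by rw [mul_pow]⟩
      | inv x _ hx =>
        obtain ⟨a, ha, rfl⟩ := hx
        exact ⟨a⁻¹, T.inv_mem ha, by rw [inv_pow]⟩
    obtain ⟨η, hη, h5⟩ := h4 _ h3
    exact hpm ε η h5 hη
  · rw [hT, sup_le_iff]
    constructor
    · rw [Subgroup.closure_le]
      rintro _ ⟨i, rfl⟩
      obtain ⟨u, hu⟩ := h1 i
      show (fam i) ^ 2 ∈ Subgroup.closure {v : (𝓞 F)ˣ | ∃ u : (ZMod f)ˣ,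
        algebraMap F K ((v : 𝓞 F) : F) * sq2 ζ (1 : (ZMod f)ˣ) = sq2 ζ u}
      apply Subgroup.subset_closure
      refine ⟨u, ?_⟩
      rw [hcast2, hu, hξ]
    · intro v hv
      show v ^ 2 ∈ Subgroup.closure {v : (𝓞 F)ˣ | ∃ u : (ZMod f)ˣ,
        algebraMap F K ((v : 𝓞 F) : F) * sq2 ζ (1 : (ZMod f)ˣ) = sq2 ζ u}
      rw [Idx_tor2 F v hv]
      exact Subgroup.one_mem _

theorem idx (f : ℕ) [NeZero f] (hf : 2 < f) (K F : Type*) [Field K] [NumberField K] [Field F] [NumberField F] [Algebra F K]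
    [IsTotallyReal F] (ζ : K) (hζ : IsPrimitiveRoot ζ f) (ξ : (ZMod f)ˣ → (𝓞 F)ˣ)
    (hξ : ∀ u : (ZMod f)ˣ, algebraMap F K ((ξ u : 𝓞 F) : F) ^ 2 * sq2 ζ (1 : (ZMod f)ˣ) = sq2 ζ u)
    (fam : Fin (Units.rank F) → (𝓞 F)ˣ) (h1 : ∀ i, ∃ u, fam i = ξ u)
    (h2 : ∀ u : (ZMod f)ˣ, (u : Qf f) ≠ 1 → ∃ i, ∃ u' : (ZMod f)ˣ, (u' : Qf f) = u ∧ fam i = ξ u') :
    ((Cy F K ζ f).index : ℝ) = Units.regOfFamily fam / Units.regulator F := by
  rw [Units.regOfFamily_div_regulator, cy_eq f hf K F ζ hζ ξ hξ fam h1 h2]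

end H86CN
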