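import Pool.Agent.H86.CN.Df

/-!
# Plc: the infinite places of `F`

`s a = (galEquivZMod f K).symm a ∈ Gal(K/ℚ)`. All embeddings `K →+* ℂ` are `φ ∘ s a` (`K/ℚ` is Galois: `IsCyclotomicExtension.isGalois {f} ℚ K`; number of embeddings = degree = `φ(f)`, or `NumberField.ComplexEmbedding`/`InfinitePlace` facts on the transitive action of `Gal(K/ℚ)`), and the complex
conjugate of `φ ∘ s a` is `φ ∘ s (-a)`: both send a primitive root `ζ` to `φ(ζ)^(-a) = conj (φ(ζ)^a)` (`|φ ζ| = 1`; `galEquivZMod_apply_of_pow_eq`; two embeddings of `K` which agree at `ζ` are equal, `IsPrimitiveRoot.power_basis`/`adjoin`). So `InfinitePlace.mk (φ ∘ s a) = InfinitePlace.mk (φ ∘ s b)` iff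
`a = b` or `a = -b` (`InfinitePlace.mk_eq_iff`), and `a ↦ InfinitePlace.mk (φ ∘ s a)` gives a bijection `Qf f ≃ InfinitePlace K`. `K` is totally complex (`IsCyclotomicExtension.Rat.isTotallyComplex`, `f > 2`). `InfinitePlace K → InfinitePlace F`, `w ↦ w.comap (algebraMap F K)`, is a bijection:
surjective (`InfinitePlace.comap_surjective`) and the cardinalities agree (proof of `card_infinitePlace_eq_card_infinitePlace` in `Mathlib/NumberTheory/NumberField/CMField.lean`). `InfinitePlace.comap_mk`, `InfinitePlace.apply`.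
-/

set_option autoImplicit false

open NumberField

namespace H86CN

/-- ring homomorphisms out of `K` which agree at a primitive root -/
theorem Plc_ext (f : ℕ) [NeZero f] (K : Type*) [Field K] [NumberField K] [IsCyclotomicExtension {f} ℚ K] {ζ : K} (hζ : IsPrimitiveRoot ζ f)
    (φ ψ : K →+* ℂ) (h : φ ζ = ψ ζ) : φ = ψ := by
  have h1 : φ.toRatAlgHom = ψ.toRatAlgHom := by
    apply (hζ.powerBasis ℚ).algHom_ext
    rw [IsPrimitiveRoot.powerBasis_gen]
    simpa using h
  ext x
  have := DFunLike.congr_fun h1 x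
  simpa using this

theorem Plc_neg_one (f : ℕ) [NeZero f] (hf : 2 < f) (K : Type*) [Field K] [NumberField K] [IsCyclotomicExtension {f} ℚ K] (φ : K →+* ℂ) (x : K) :
    φ ((IsCyclotomicExtension.Rat.galEquivZMod f K).symm (-1) x) = (starRingEnd ℂ) (φ x) := by
  have hζ := IsCyclotomicExtension.zeta_spec f ℚ K
  have key : φ.comp ((IsCyclotomicExtension.Rat.galEquivZMod f K).symm (-1)).toRingEquiv.toRingHom = (starRingEnd ℂ).comp φ := by
    apply Plc_ext f K hζ
    show φ ((IsCyclotomicExtension.Rat.galEquivZMod f K).symm (-1) (IsCyclotomicExtension.zeta f ℚ K)) = (starRingEnd ℂ) (φ (IsCyclotomicExtension.zeta f ℚ K))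
    rw [IsCyclotomicExtension.Rat.galEquivZMod_apply_of_pow_eq f K _ hζ.pow_eq_one, MulEquiv.apply_symm_apply, map_pow]
    have hz : (φ (IsCyclotomicExtension.zeta f ℚ K)) ^ f = 1 := by rw [← map_pow, hζ.pow_eq_one, map_one]
    have hn : ‖φ (IsCyclotomicExtension.zeta f ℚ K)‖ = 1 := Complex.norm_eq_one_of_pow_eq_one hz (NeZero.ne f)
    have hinv : (starRingEnd ℂ) (φ (IsCyclotomicExtension.zeta f ℚ K)) = (φ (IsCyclotomicExtension.zeta f ℚ K))⁻¹ := by
      rw [Complex.inv_def, Complex.normSq_eq_norm_sq, hn]; simp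
    rw [hinv]
    apply eq_inv_of_mul_eq_one_left
    rw [← pow_succ]
    have : ((-1 : (ZMod f)ˣ) : ZMod f).val + 1 = f := by
      obtain ⟨m, rfl⟩ : ∃ m, f = m + 1 := ⟨f - 1, by omega⟩
      rw [Units.val_neg, Units.val_one, ZMod.val_neg_one]
    rw [this, hz]
  exact DFunLike.congr_fun key x

theorem Plc_conj (f : ℕ) [NeZero f] (hf : 2 < f) (K : Type*) [Field K] [NumberField K] [IsCyclotomicExtension {f} ℚ K] (φ : K →+* ℂ)
    (a : (ZMod f)ˣ) (x : K) :
    φ ((IsCyclotomicExtension.Rat.galEquivZMod f K).symm (-a) x) = (starRingEnd ℂ) (φ ((IsCyclotomicExtension.Rat.galEquivZMod f K).symm a x)) := by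
  rw [← Plc_neg_one f hf K φ]
  congr 1
  rw [← AlgEquiv.mul_apply, ← map_mul, neg_one_mul]

/-- the place of `K` given by `φ ∘ s a` -/
noncomputable def Plc_V (f : ℕ) [NeZero f] (K : Type*) [Field K] [NumberField K] [IsCyclotomicExtension {f} ℚ K] (φ : K →+* ℂ)
    (a : (ZMod f)ˣ) : InfinitePlace K :=
  InfinitePlace.mk (φ.comp ((IsCyclotomicExtension.Rat.galEquivZMod f K).symm a).toRingEquiv.toRingHom)

theorem Plc_V_apply (f : ℕ) [NeZero f] (K : Type*) [Field K] [NumberField K] [IsCyclotomicExtension {f} ℚ K] (φ : K →+* ℂ)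
    (a : (ZMod f)ˣ) (x : K) : Plc_V f K φ a x = ‖φ ((IsCyclotomicExtension.Rat.galEquivZMod f K).symm a x)‖ := rfl

theorem Plc_comp_inj (f : ℕ) [NeZero f] (K : Type*) [Field K] [NumberField K] [IsCyclotomicExtension {f} ℚ K] (φ : K →+* ℂ)
    (a b : (ZMod f)ˣ) (h : φ.comp ((IsCyclotomicExtension.Rat.galEquivZMod f K).symm a).toRingEquiv.toRingHom =
      φ.comp ((IsCyclotomicExtension.Rat.galEquivZMod f K).symm b).toRingEquiv.toRingHom) : a = b := by
  apply (IsCyclotomicExtension.Rat.galEquivZMod f K).symm.injective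
  ext x
  exact φ.injective (DFunLike.congr_fun h x)

theorem Plc_V_eq (f : ℕ) [NeZero f] (hf : 2 < f) (K : Type*) [Field K] [NumberField K] [IsCyclotomicExtension {f} ℚ K] (φ : K →+* ℂ)
    (a b : (ZMod f)ˣ) : Plc_V f K φ a = Plc_V f K φ b ↔ a = b ∨ a = -b := by
  unfold Plc_V
  rw [InfinitePlace.mk_eq_iff]
  constructor
  · rintro (h | h)
    · exact Or.inl (Plc_comp_inj f K φ a b h)
    · right
      have h2 : φ.comp ((IsCyclotomicExtension.Rat.galEquivZMod f K).symm (-a)).toRingEquiv.toRingHom =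
          φ.comp ((IsCyclotomicExtension.Rat.galEquivZMod f K).symm b).toRingEquiv.toRingHom := by
        rw [← h]
        ext x
        exact Plc_conj f hf K φ a x
      rw [← Plc_comp_inj f K φ _ _ h2, neg_neg]
  · rintro (rfl | rfl)
    · exact Or.inl rfl
    · right
      ext x
      have := Plc_conj f hf K φ (-b) x
      rw [neg_neg] at this
      exact this.symm

theorem Plc_V_surj (f : ℕ) [NeZero f] (K : Type*) [Field K] [NumberField K] [IsCyclotomicExtension {f} ℚ K] (φ : K →+* ℂ) :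
    Function.Surjective (Plc_V f K φ) := by
  intro w
  have : IsGalois ℚ K := IsCyclotomicExtension.isGalois {f} ℚ K
  obtain ⟨σ, hσ⟩ := InfinitePlace.ComplexEmbedding.exists_comp_symm_eq_of_comp_eq (k := ℚ) φ w.embedding (Subsingleton.elim _ _)
  refine ⟨IsCyclotomicExtension.Rat.galEquivZMod f K σ.symm, ?_⟩
  unfold Plc_V
  rw [MulEquiv.symm_apply_apply]
  have : φ.comp (σ.symm).toRingEquiv.toRingHom = w.embedding := hσ
  rw [this, InfinitePlace.mk_embedding]

theorem Plc_comap_bij (f : ℕ) [NeZero f] (hf : 2 < f) (K F : Type*) [Field K] [NumberField K] [IsCyclotomicExtension {f} ℚ K] [Field F]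
    [NumberField F] [Algebra F K] [IsTotallyReal F] [Algebra.IsQuadraticExtension F K] :
    Function.Bijective (fun w : InfinitePlace K ↦ w.comap (algebraMap F K)) := by
  have : IsTotallyComplex K := IsCyclotomicExtension.Rat.isTotallyComplex K hf
  refine (Fintype.bijective_iff_surjective_and_card _).mpr ⟨InfinitePlace.comap_surjective, ?_⟩
  symm
  rw [InfinitePlace.card_eq_nrRealPlaces_add_nrComplexPlaces, InfinitePlace.card_eq_nrRealPlaces_add_nrComplexPlaces,
    IsTotallyComplex.nrRealPlaces_eq_zero K, IsTotallyReal.nrComplexPlaces_eq_zero, zero_add,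
    add_zero, ← IsTotallyReal.finrank, ← Nat.mul_left_cancel_iff zero_lt_two,
    ← IsTotallyComplex.finrank, ← Module.finrank_mul_finrank ℚ F K, mul_comm,
    Algebra.IsQuadraticExtension.finrank_eq_two _ K]

theorem Plc_quot (f : ℕ) (a b : (ZMod f)ˣ) : (a : Qf f) = (b : Qf f) ↔ a = b ∨ a = -b := by
  rw [QuotientGroup.eq, Subgroup.mem_zpowers_iff]
  constructor
  · rintro ⟨k, hk⟩
    have hk' : b = a * (-1) ^ k := by rw [hk]; group
    rcases Int.even_or_odd k with h | h
    · obtain ⟨m, rfl⟩ := h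
      left
      rw [hk', zpow_add, ← mul_zpow]; simp
    · obtain ⟨m, rfl⟩ := h
      right
      rw [hk', zpow_add, two_mul, zpow_add, ← mul_zpow]; simp
  · rintro (rfl | rfl)
    · exact ⟨0, by simp⟩
    · exact ⟨1, by simp⟩

theorem plc (f : ℕ) [NeZero f] (hf : 2 < f) (K F : Type*) [Field K] [NumberField K] [IsCyclotomicExtension {f} ℚ K] [Field F]
    [NumberField F] [Algebra F K] [IsTotallyReal F] [Algebra.IsQuadraticExtension F K] (φ : K →+* ℂ) :
    ∃ e : Qf f ≃ InfinitePlace F, ∀ (a : (ZMod f)ˣ) (x : F),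
      e (a : Qf f) x = ‖φ ((IsCyclotomicExtension.Rat.galEquivZMod f K).symm a (algebraMap F K x))‖ := by
  classical
  have hb := Plc_comap_bij f hf K F
  have hcong : ∀ a b : (ZMod f)ˣ, (a : Qf f) = (b : Qf f) ↔
      (Plc_V f K φ a).comap (algebraMap F K) = (Plc_V f K φ b).comap (algebraMap F K) := by
    intro a b
    rw [Plc_quot, ← Plc_V_eq f hf K φ a b]
    exact ⟨fun h => by rw [h], fun h => hb.1 h⟩
  let g : Qf f → InfinitePlace F := fun q => (Plc_V f K φ q.out).comap (algebraMap F K)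
  have hg : ∀ a : (ZMod f)ˣ, g (a : Qf f) = (Plc_V f K φ a).comap (algebraMap F K) := by
    intro a
    apply (hcong _ _).1
    exact QuotientGroup.out_eq' _
  have hbij : Function.Bijective g := by
    constructor
    · intro p q hpq
      induction p using QuotientGroup.induction_on with
      | H a =>
        induction q using QuotientGroup.induction_on with
        | H b =>
          rw [hg, hg] at hpq
          exact (hcong a b).2 hpq
    · intro w
      obtain ⟨v, hv⟩ := hb.2 w
      obtain ⟨a, ha⟩ := Plc_V_surj f K φ v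
      exact ⟨(a : Qf f), by rw [hg, ha]; exact hv⟩
  refine ⟨Equiv.ofBijective g hbij, fun a x => ?_⟩
  rw [Equiv.ofBijective_apply, hg, InfinitePlace.comap_apply, Plc_V_apply]

end H86CN
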