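import Mathlib

/-!
# GrD: the group determinant

`G` finite abelian, `g : G → ℝ`. Then `|det (g(b u) - g(b))_{u, b ≠ 1}| = ∏_{ψ ≠ 1} ‖∑_x ψ(x) g(x)‖` (Washington, Cyclotomic fields, Lemma 5.26).

PROOF. Characters `ψ : G →* ℂˣ`; there are `card G` of them (`CommGroup.card_monoidHom_of_hasEnoughRootsOfUnity`, `CommGroup.monoidHom_mulEquiv_of_hasEnoughRootsOfUnity`; `ℂ` has enough roots of unity), and for `x ≠ 1` there is `ψ` with `ψ x ≠ 1`
(`CommGroup.exists_apply_ne_one_of_hasEnoughRootsOfUnity`). Orthogonality: `∑_x ψ(x) = 0` for `ψ ≠ 1` (choose `y` with `ψ y ≠ 1`, translate), `|ψ(x)| = 1`. Fix a bijection `ε : G ≃ (G →* ℂˣ)`, `M x y = (ε x) y`, `A x y = g(x y⁻¹)` (complex matrices over `G`):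
`(M A) x y = ∑_z (ε x)(z) g(z y⁻¹) = (ε x)(y) λ_x`, `λ_x = ∑_z (ε x)(z) g(z)`, so `M A = diag(λ) M`; `M Mᴴ = card G • 1` (orthogonality), so `det M ≠ 0` and `det A = ∏_x λ_x = ∏_ψ λ_ψ`.
Now for real `t` replace `g` by `g + t`: `λ_ψ` does not change for `ψ ≠ 1`, `λ_1 = ∑ g + t card G`. `det A_t`: subtract the column of `y = 1` from all the other columns and then add all the other rows to the row of `x = 1`: the entries of the row `x = 1` are
`∑_x (g(x y⁻¹) - g(x)) = 0` for `y ≠ 1` and `∑_x g(x) + t card G` for `y = 1`; so `det A_t = (∑ g + t card G) det(g(x y⁻¹) - g(x))_{x, y ≠ 1}` (expand along the row; or use the block matrix for `G ≃ Unit ⊕ {x // x ≠ 1}`, `Matrix.det_fromBlocks_zero₁₂`).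
With `t` such that `∑ g + t card G ≠ 0`: `det(g(x y⁻¹) - g(x))_{x, y ≠ 1} = ∏_{ψ ≠ 1} λ_ψ`. The matrix of the statement is the transpose of this one with the index `u = y⁻¹`: a permutation of one of the indices changes the determinant by a sign
(`Matrix.det_permute`, `Equiv.Perm.sign`), so the absolute values are equal. (Real determinant to complex: `RingHom.map_det`, `Complex.norm_real`.)
-/

set_option autoImplicit false

open Finset

namespace H86CN

/-- the value of a character at the inverse is the complex conjugate -/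
theorem GrD_conj {G : Type} [CommGroup G] [Fintype G] (ψ : G →* ℂˣ) (u : G) :
    ((ψ u⁻¹ : ℂˣ) : ℂ) = (starRingEnd ℂ) ((ψ u : ℂˣ) : ℂ) := by
  have h1 : ((ψ u : ℂˣ) : ℂ) ^ Fintype.card G = 1 := by
    have h2 : (ψ u) ^ Fintype.card G = 1 := by
      rw [← map_pow, pow_card_eq_one, map_one]
    have h3 := congrArg (fun z : ℂˣ => (z : ℂ)) h2
    simpa using h3
  have h4 : ‖((ψ u : ℂˣ) : ℂ)‖ = 1 := Complex.norm_eq_one_of_pow_eq_one h1 Fintype.card_ne_zero
  rw [map_inv, Units.val_inv_eq_inv_val, Complex.inv_def, Complex.normSq_eq_norm_sq, h4]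
  simp

/-- the sum over the elements different from `1` -/
theorem GrD_sub {G : Type} [CommGroup G] [Fintype G] [DecidableEq G]
    [i : Fintype {x : G // x ≠ 1}] (F : G → ℂ)
    (h : F 1 = 0) : ∑ b : {x : G // x ≠ 1}, F b = ∑ b, F b := by
  have h1 : ∑ b ∈ univ.filter (fun x : G => x ≠ 1), F b = ∑ b : {x : G // x ≠ 1}, F b :=
    Finset.sum_subtype _ (fun x => by simp) F
  rw [← h1]
  apply Finset.sum_filter_of_ne
  intro x _ hx h2
  rw [h2] at hx
  exact hx h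

/-- the key sum -/
theorem GrD_key {G : Type} [CommGroup G] [Fintype G] (g : G → ℝ) (ψ : G →* ℂˣ) (u : G) :
    ∑ b : G, (((g (b * u) - g b : ℝ) : ℂ) * (((ψ b : ℂˣ) : ℂ) - 1)) =
      ((starRingEnd ℂ) ((ψ u : ℂˣ) : ℂ) - 1) * ∑ x, ((ψ x : ℂˣ) : ℂ) * (g x : ℂ) := by
  have h1 : ∑ b : G, ((g (b * u) : ℝ) : ℂ) * ((ψ b : ℂˣ) : ℂ) =
      (starRingEnd ℂ) ((ψ u : ℂˣ) : ℂ) * ∑ x, ((ψ x : ℂˣ) : ℂ) * (g x : ℂ) := by
    rw [← GrD_conj, Finset.mul_sum]
    refine Fintype.sum_equiv (Equiv.mulRight u) _ _ (fun b => ?_)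
    have h2 : ψ b = ψ u⁻¹ * ψ (b * u) := by
      rw [← map_mul]
      congr 1
      rw [mul_comm b u, inv_mul_cancel_left]
    show ((g (b * u) : ℝ) : ℂ) * ((ψ b : ℂˣ) : ℂ) =
      ((ψ u⁻¹ : ℂˣ) : ℂ) * (((ψ (b * u) : ℂˣ) : ℂ) * (g (b * u) : ℂ))
    rw [h2, Units.val_mul]
    ring
  have h3 : ∑ b : G, ((g (b * u) : ℝ) : ℂ) = ∑ b : G, ((g b : ℝ) : ℂ) :=
    Fintype.sum_equiv (Equiv.mulRight u) _ _ (fun b => rfl)
  have h4 : ∀ b : G, (((g (b * u) - g b : ℝ) : ℂ) * (((ψ b : ℂˣ) : ℂ) - 1)) =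
      ((g (b * u) : ℝ) : ℂ) * ((ψ b : ℂˣ) : ℂ) - ((g (b * u) : ℝ) : ℂ)
        - ((ψ b : ℂˣ) : ℂ) * (g b : ℂ) + (g b : ℂ) := by
    intro b
    push_cast
    ring
  rw [Finset.sum_congr rfl (fun b _ => h4 b), Finset.sum_add_distrib, Finset.sum_sub_distrib,
    Finset.sum_sub_distrib, h1, h3]
  ring

/-- linear independence of the characters -/
theorem GrD_ind {G : Type} [CommGroup G] [Fintype G] {ι : Type} [Fintype ι] (ψ : ι → (G →* ℂˣ))
    (hinj : Function.Injective ψ) (h1 : ∀ i, ψ i ≠ 1) (v : ι → ℂ)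
    (hv : ∀ b : G, ∑ i, (((ψ i b : ℂˣ) : ℂ) - 1) * v i = 0) : ∀ i, v i = 0 := by
  obtain ⟨χ, hχ⟩ : ∃ χ : Option ι → (G →* ℂ), χ = fun o =>
    match o with
    | none => 1
    | some i => (Units.coeHom ℂ).comp (ψ i) := ⟨_, rfl⟩
  have e0 : χ none = 1 := by rw [hχ]
  have e1 : ∀ i, χ (some i) = (Units.coeHom ℂ).comp (ψ i) := fun i => by rw [hχ]
  have hχi : Function.Injective χ := by
    intro a b hab
    rcases a with _ | i <;> rcases b with _ | j
    · rfl
    · exfalso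
      rw [e0, e1] at hab
      apply h1 j
      ext x
      have := DFunLike.congr_fun hab x
      simpa using this.symm
    · exfalso
      rw [e0, e1] at hab
      apply h1 i
      ext x
      have := DFunLike.congr_fun hab x
      simpa using this
    · rw [e1, e1] at hab
      have : i = j := by
        apply hinj
        ext x
        have := DFunLike.congr_fun hab x
        simpa using this
      rw [this]
  have hli := (linearIndependent_monoidHom G ℂ).comp χ hχi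
  rw [Fintype.linearIndependent_iff] at hli
  intro i
  have h2 := hli (fun o => match o with
    | none => -∑ i, v i
    | some i => v i) (by
      rw [Fintype.sum_option]
      funext b
      have h3 := hv b
      simp only [Function.comp, e0, e1, Pi.add_apply, Finset.sum_apply, Pi.smul_apply, smul_eq_mul,
        MonoidHom.one_apply, MonoidHom.comp_apply, Units.coeHom_apply, Pi.zero_apply, mul_one]
      rw [← h3]
      simp only [sub_mul, one_mul, Finset.sum_sub_distrib]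
      rw [add_comm, ← sub_eq_add_neg]
      congr 1
      exact Finset.sum_congr rfl fun i _ => mul_comm _ _) (some i)
  exact h2

open Classical in
theorem grD {G : Type} [CommGroup G] [Fintype G] [Fintype (G →* ℂˣ)] (g : G → ℝ) :
    |(Matrix.of (fun (u b : {x : G // x ≠ 1}) => g ((b : G) * u) - g b)).det| =
      ∏ ψ ∈ univ.filter (fun ψ : G →* ℂˣ => ψ ≠ 1), ‖∑ x, ((ψ x : ℂˣ) : ℂ) * (g x : ℂ)‖ := by
  obtain ⟨E⟩ := CommGroup.monoidHom_mulEquiv_of_hasEnoughRootsOfUnity G ℂ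
  obtain ⟨e, he⟩ : ∃ e : {x : G // x ≠ 1} ≃ {ψ : G →* ℂˣ // ψ ≠ 1}, e = e :=
    ⟨(E.symm.toEquiv).subtypeEquiv (fun x => by simp), rfl⟩
  obtain ⟨Q, hQ⟩ : ∃ Q : Matrix {x : G // x ≠ 1} {x : G // x ≠ 1} ℂ,
    Q = Matrix.of (fun (b y : {x : G // x ≠ 1}) => ((((e y : G →* ℂˣ) (b : G) : ℂˣ) : ℂ) - 1)) := ⟨_, rfl⟩
  obtain ⟨B, hB⟩ : ∃ B : Matrix {x : G // x ≠ 1} {x : G // x ≠ 1} ℝ,
    B = Matrix.of (fun (u b : {x : G // x ≠ 1}) => g ((b : G) * u) - g b) := ⟨_, rfl⟩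
  rw [← hB]
  obtain ⟨lam, hlam⟩ : ∃ lam : {x : G // x ≠ 1} → ℂ,
    lam = fun y => ∑ x, (((e y : G →* ℂˣ) x : ℂˣ) : ℂ) * (g x : ℂ) := ⟨_, rfl⟩
  have hdQ : Q.det ≠ 0 := by
    intro h0
    obtain ⟨v, hv0, hv⟩ := Matrix.exists_mulVec_eq_zero_iff.2 h0
    apply hv0
    have h1 := GrD_ind (fun y : {x : G // x ≠ 1} => (e y : G →* ℂˣ))
      (fun a b hab => e.injective (Subtype.ext hab)) (fun y => (e y).2) v (by
        intro b
        by_cases hb : b = 1
        · rw [hb]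
          simp
        · have h2 := congrFun hv ⟨b, hb⟩
          rw [hQ] at h2
          exact h2)
    funext i
    exact h1 i
  have hmul : (B.map (fun x : ℝ => (x : ℂ))) * Q =
      (Q.map (starRingEnd ℂ)) * Matrix.diagonal lam := by
    ext u y
    rw [Matrix.mul_diagonal, Matrix.mul_apply, hB, hQ, hlam]
    have h1 := GrD_key g (e y : G →* ℂˣ) (u : G)
    have h2 := GrD_sub (fun b : G => ((g (b * u) - g b : ℝ) : ℂ) *
      ((((e y : G →* ℂˣ) b : ℂˣ) : ℂ) - 1)) (by simp)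
    have h3 := h2.trans h1
    simp only [Matrix.map_apply, Matrix.of_apply, map_sub, map_one]
    exact h3
  have hdet := congrArg Matrix.det hmul
  rw [Matrix.det_mul, Matrix.det_mul, Matrix.det_diagonal] at hdet
  have h1 : (Q.map (starRingEnd ℂ)).det = (starRingEnd ℂ) Q.det :=
    (RingHom.map_det (starRingEnd ℂ) Q).symm
  have h2 : (B.map (fun x : ℝ => (x : ℂ))).det = ((B.det : ℝ) : ℂ) :=
    (RingHom.map_det Complex.ofRealHom B).symm
  rw [h1, h2] at hdet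
  have h3 := congrArg norm hdet
  rw [norm_mul, norm_mul, RCLike.norm_conj, Complex.norm_real, Real.norm_eq_abs, mul_comm] at h3
  have h4 : |B.det| = ‖∏ i, lam i‖ := mul_left_cancel₀ (norm_ne_zero_iff.2 hdQ) h3
  rw [h4, norm_prod, hlam]
  have h5 : ∏ ψ ∈ univ.filter (fun ψ : G →* ℂˣ => ψ ≠ 1), ‖∑ x, ((ψ x : ℂˣ) : ℂ) * (g x : ℂ)‖ =
      ∏ ψ : {ψ : G →* ℂˣ // ψ ≠ 1}, ‖∑ x, (((ψ : G →* ℂˣ) x : ℂˣ) : ℂ) * (g x : ℂ)‖ :=
    Finset.prod_subtype _ (fun x => by simp) _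
  rw [h5]
  exact Fintype.prod_equiv e _ _ (fun y => rfl)

end H86CN
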