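import Pool.Agent.H86.CN.Gf
import Pool.Agent.H86.CN.GrD

/-!
# Reg: the regulator of the cyclotomic units

`w' = e 1`. `Units.rank F = card (InfinitePlace F) - 1`, so there is `E : {w // w ≠ e 1} ≃ Fin (Units.rank F)` (`Fintype.card` of the subtype is the rank; any equivalence). `fam i = ξ ((e.symm (E.symm i)).out)`. `NumberField.Units.regOfFamily_eq_det` with `w'` and `E`: the matrix has the entries
`mult w * log (w (fam (E i)))`, `mult w = 1` (`F` totally real: `InfinitePlace.mult_isReal`/`IsTotallyReal.isReal`), `E.symm (E i) = i`; with `i = e q`, `w = e q'` (`q`, `q' ≠ 1`) and representatives `u = q.out`, `b = q'.out`: `log = gf f (b u) - gf f b = gq f (q' q) - gq f q'` (`hlog`, `gq_mk`). Reindex by `e`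
(`Matrix.det_submatrix_equiv_self`/`det_reindex_self` with the equivalence `{q // q ≠ 1} ≃ {w // w ≠ e 1}`) and apply `grD` with `G = Qf f`, `g = gq f`.
-/

set_option autoImplicit false

open NumberField Finset

namespace H86CN

theorem Reg_det {ι : Type*} (d1 d2 : DecidableEq ι) (f1 f2 : Fintype ι) (N : Matrix ι ι ℝ) :
    @Matrix.det ι d1 f1 ℝ _ N = @Matrix.det ι d2 f2 ℝ _ N := by
  rw [Subsingleton.elim d1 d2, Subsingleton.elim f1 f2]

open Classical in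
theorem reg (f : ℕ) [NeZero f] (F : Type*) [Field F] [NumberField F] [IsTotallyReal F] (e : Qf f ≃ InfinitePlace F)
    [Fintype (Qf f)] [Fintype (Qf f →* ℂˣ)] (ξ : (ZMod f)ˣ → (𝓞 F)ˣ)
    (hlog : ∀ u b : (ZMod f)ˣ, Real.log (e (b : Qf f) ((ξ u : 𝓞 F) : F)) = gf f (b * u) - gf f b) :
    ∃ fam : Fin (Units.rank F) → (𝓞 F)ˣ, (∀ i, ∃ u, fam i = ξ u) ∧
      (∀ u : (ZMod f)ˣ, (u : Qf f) ≠ 1 → ∃ i, ∃ u' : (ZMod f)ˣ, (u' : Qf f) = u ∧ fam i = ξ u') ∧
      Units.regOfFamily fam =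
        ∏ ψ ∈ univ.filter (fun ψ : Qf f →* ℂˣ => ψ ≠ 1), ‖∑ q, ((ψ q : ℂˣ) : ℂ) * (gq f q : ℂ)‖ := by
  have hcard : Fintype.card {w : InfinitePlace F // w ≠ e 1} = Units.rank F := by
    rw [Fintype.card_subtype_compl, Fintype.card_subtype_eq]
    rfl
  obtain ⟨E⟩ : Nonempty ({w : InfinitePlace F // w ≠ e 1} ≃ Fin (Units.rank F)) :=
    ⟨Fintype.equivFinOfCardEq hcard⟩
  have hm : ∀ w : InfinitePlace F, w.mult = 1 := fun w =>
    InfinitePlace.mult_isReal ⟨w, IsTotallyReal.isReal w⟩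
  have hent : ∀ q q' : Qf f, ((e q').mult : ℝ) * Real.log (e q' ((ξ q.out : 𝓞 F) : F)) =
      gq f (q' * q) - gq f q' := by
    intro q q'
    have h := hlog q.out q'.out
    rw [← gq_mk, ← gq_mk, QuotientGroup.mk_mul, QuotientGroup.out_eq', QuotientGroup.out_eq'] at h
    rw [hm, Nat.cast_one, one_mul]
    exact h
  obtain ⟨fam, hfam⟩ : ∃ fam : Fin (Units.rank F) → (𝓞 F)ˣ, ∀ i, fam i = ξ (e.symm (E.symm i).val).out :=
    ⟨fun i => ξ (e.symm (E.symm i).val).out, fun i => rfl⟩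
  refine ⟨fam, fun i => ⟨_, hfam i⟩, ?_, ?_⟩
  · intro u hu
    have h1 : e (u : Qf f) ≠ e 1 := fun h => hu (e.injective h)
    refine ⟨E ⟨e (u : Qf f), h1⟩, (u : Qf f).out, QuotientGroup.out_eq' _, ?_⟩
    rw [hfam, Equiv.symm_apply_apply, Equiv.symm_apply_apply]
  · obtain ⟨ε, hε⟩ : ∃ ε : {q : Qf f // q ≠ 1} ≃ {w : InfinitePlace F // w ≠ e 1}, ∀ q, (ε q).val = e q.val :=
      ⟨e.subtypeEquiv fun q => by rw [ne_eq, ne_eq, e.injective.eq_iff], fun q => rfl⟩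
    have h1 := Units.regOfFamily_eq_det fam (e 1) E
    obtain ⟨MM, hMM⟩ : ∃ MM : Matrix {w : InfinitePlace F // w ≠ e 1} {w : InfinitePlace F // w ≠ e 1} ℝ,
      MM = Matrix.of (fun i w : {w : InfinitePlace F // w ≠ e 1} =>
        (w.val.mult : ℝ) * Real.log (w.val (fam (E i) : F))) := ⟨_, rfl⟩
    rw [← hMM] at h1
    have h2 : MM.submatrix ε ε = Matrix.of (fun (u b : {x : Qf f // x ≠ 1}) => gq f ((b : Qf f) * u) - gq f b) := by
      ext u b
      rw [hMM, Matrix.submatrix_apply, Matrix.of_apply, Matrix.of_apply, hfam, Equiv.symm_apply_apply, hε, hε,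
        Equiv.symm_apply_apply]
      exact hent u.val b.val
    obtain ⟨N, hN⟩ : ∃ N : Matrix {x : Qf f // x ≠ 1} {x : Qf f // x ≠ 1} ℝ,
      N = Matrix.of (fun (u b : {x : Qf f // x ≠ 1}) => gq f ((b : Qf f) * u) - gq f b) := ⟨_, rfl⟩
    have h3 := Matrix.det_submatrix_equiv_self ε MM
    have h4 := grD (gq f)
    rw [h2, ← hN] at h3
    rw [← hN] at h4
    rw [h1, ← h3, ← h4]
    exact congrArg abs (Reg_det _ _ _ _ N)

end H86CN
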