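import Pool.Agent.H86.CN.Df

/-!
# Xi: the units `ξ_u`, and an embedding with `ζ ↦ exp(2πi/f)`

* `emb`: take any embedding `φ : K →+* ℂ` and `z = IsCyclotomicExtension.zeta f ℚ K`; `φ z` is a primitive `f`-th root of unity, so `exp(2πi/f) = (φ z)^j` with `j` coprime to `f` (`IsPrimitiveRoot.eq_pow_of_pow_eq_one`, `Complex.isPrimitiveRoot_exp`, `IsPrimitiveRoot.pow_iff_coprime`); `ζ = z^j`.
* `xi`: `m = (f+1)/2`, `η = ζ^m`, so `η² = ζ`. For `k = u.val.val` (odd or even) let `x = (η^k - η^(-k))/(η - η⁻¹) ∈ K`. Then `x² sq2 ζ 1 = sq2 ζ u`, as `(η^k - η^(-k))² = -(1 - ζ^k)(1 - ζ^(-k))`, for `k` and for `1` (`f > 2`, so `(1 : (ZMod f)ˣ).val.val = 1`). `x` is a unit of `𝓞 K`: `x = η^(1-k) (1 - ζ^k)/(1 - ζ)`,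
`(1 - ζ^k)/(1 - ζ) = ∑_{i<k} ζ^i` is integral, and its inverse `(1 - ζ^(k l))/(1 - ζ^k)`, `k l ≡ 1` mod `f`, is integral (`IsPrimitiveRoot.geom_sum_isUnit` if it fits). `x` lies in the image of `F`: `K` is CM with maximal real subfield = image of `F` (`CMExtension.equivMaximalRealSubfield F K`,
`equivMaximalRealSubfield_apply`; `IsCMField.ofCMExtension F K`; `K` is totally complex by `IsCyclotomicExtension.Rat.isTotallyComplex`), and `x` is fixed by the complex conjugation (`IsCMField.complexConj_eq_self_iff`), which sends `η` to `η⁻¹` (`complexEmbedding_complexConj`; or `complexConj_torsion`).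
So `x = algebraMap y`, `y` is integral over `ℤ` (injectivity), and `y⁻¹` too; this gives the unit.
-/

set_option autoImplicit false

open NumberField

namespace H86CN

theorem emb (f : ℕ) [NeZero f] (K : Type*) [Field K] [NumberField K] [IsCyclotomicExtension {f} ℚ K] :
    ∃ (φ : K →+* ℂ) (ζ : K), IsPrimitiveRoot ζ f ∧ φ ζ = Complex.exp (2 * Real.pi * Complex.I / f) := by
  have hz := IsCyclotomicExtension.zeta_spec f ℚ K
  let φ : K →+* ℂ := Classical.choice (inferInstance : Nonempty (K →+* ℂ))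
  have hφ : IsPrimitiveRoot (φ (IsCyclotomicExtension.zeta f ℚ K)) f :=
    hz.map_of_injective φ.injective
  have hexp := Complex.isPrimitiveRoot_exp f (NeZero.ne f)
  obtain ⟨j, -, hj⟩ := hφ.eq_pow_of_pow_eq_one hexp.pow_eq_one
  have hm : φ ((IsCyclotomicExtension.zeta f ℚ K) ^ j) = Complex.exp (2 * Real.pi * Complex.I / f) := by
    rw [map_pow]
    exact hj
  refine ⟨φ, (IsCyclotomicExtension.zeta f ℚ K) ^ j, ?_, hm⟩
  refine IsPrimitiveRoot.of_map_of_injective (f := φ) ?_ φ.injective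
  rw [hm]
  exact hexp

theorem Xi_conj {K : Type*} [Field K] [NumberField K] [IsTotallyComplex K] [IsCMField K] {f : ℕ} (hf : f ≠ 0)
    {y : K} (hy : y ^ f = 1) : IsCMField.complexConj K y = y⁻¹ := by
  let φ : K →+* ℂ := Classical.choice (inferInstance : Nonempty (K →+* ℂ))
  apply φ.injective
  rw [IsCMField.complexEmbedding_complexConj, map_inv₀]
  have h1 : (φ y) ^ f = 1 := by rw [← map_pow, hy, map_one]
  have h2 : ‖φ y‖ = 1 := Complex.norm_eq_one_of_pow_eq_one h1 hf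
  exact (Complex.inv_eq_conj h2).symm

theorem xi (f : ℕ) [NeZero f] (hf : 2 < f) (hodd : Odd f) (K F : Type*) [Field K] [NumberField K] [IsCyclotomicExtension {f} ℚ K]
    [Field F] [NumberField F] [Algebra F K] [IsTotallyReal F] [Algebra.IsQuadraticExtension F K] (ζ : K) (hζ : IsPrimitiveRoot ζ f)
    (u : (ZMod f)ˣ) : ∃ ξ : (𝓞 F)ˣ, algebraMap F K ((ξ : 𝓞 F) : F) ^ 2 * sq2 ζ (1 : (ZMod f)ˣ) = sq2 ζ u := by
  haveI : Fact (1 < f) := ⟨by omega⟩
  haveI : IsTotallyComplex K := IsCyclotomicExtension.Rat.isTotallyComplex (n := f) K hf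
  haveI : IsCMField K := IsCMField.ofCMExtension F K
  have hk : u.val.val.Coprime f := ZMod.val_coe_unit_coprime u
  have hk0 : u.val.val ≠ 0 := by
    intro h0
    rw [h0, Nat.coprime_zero_left] at hk
    omega
  have h1v : (1 : (ZMod f)ˣ).val.val = 1 := by
    rw [Units.val_one]
    exact ZMod.val_one f
  generalize hkd : u.val.val = k at hk hk0
  have hsq : sq2 ζ u = (1 - ζ ^ k) * (1 - (ζ⁻¹) ^ k) := by
    unfold sq2
    rw [hkd]
  have hsq1 : sq2 ζ (1 : (ZMod f)ˣ) = (1 - ζ) * (1 - ζ⁻¹) := by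
    unfold sq2
    rw [h1v, pow_one, pow_one]
  rw [hsq, hsq1]
  have hζ0 : ζ ≠ 0 := hζ.ne_zero (by omega)
  have hζf : ζ ^ f = 1 := hζ.pow_eq_one
  -- the square root of `ζ`
  obtain ⟨t, ht⟩ := hodd
  have hη2 : (ζ ^ (t + 1)) ^ 2 = ζ := by
    rw [← pow_mul]
    have : (t + 1) * 2 = f + 1 := by omega
    rw [this, pow_succ, hζf, one_mul]
  have hηf : (ζ ^ (t + 1)) ^ f = 1 := by
    rw [← pow_mul, mul_comm, pow_mul, hζf, one_pow]
  have hη0 : ζ ^ (t + 1) ≠ 0 := pow_ne_zero _ hζ0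
  -- the integral unit
  have hζ' : IsPrimitiveRoot hζ.toInteger f := hζ.toInteger_isPrimitiveRoot
  have hg := hζ'.geom_sum_isUnit (by omega : 2 ≤ f) hk
  have hu : IsUnit (hζ.toInteger ^ (t + 1)) := (hζ'.isUnit (by omega)).pow _
  obtain ⟨g, hgv⟩ := hg
  obtain ⟨e, hev⟩ := hu
  have hgK : ((g : 𝓞 K) : K) = ∑ i ∈ Finset.range k, ζ ^ i := by
    rw [hgv]
    push_cast
    rfl
  have heK : ((e : 𝓞 K) : K) = ζ ^ (t + 1) := by
    rw [hev]
    push_cast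
    rfl
  have heK' : (((e⁻¹ : (𝓞 K)ˣ) : 𝓞 K) : K) = (ζ ^ (t + 1))⁻¹ := by
    have h1 : (((e⁻¹ : (𝓞 K)ˣ) : 𝓞 K) : K) * ((e : 𝓞 K) : K) = 1 := by
      have h2 : ((e⁻¹ : (𝓞 K)ˣ) : 𝓞 K) * (e : 𝓞 K) = 1 := e.inv_mul
      have h3 := congrArg (fun w : 𝓞 K => (w : K)) h2
      simpa using h3
    rw [heK] at h1
    exact eq_inv_of_mul_eq_one_left h1
  let x : (𝓞 K)ˣ := (e⁻¹) ^ (k - 1) * g
  have hx : ((x : 𝓞 K) : K) = ((ζ ^ (t + 1))⁻¹) ^ (k - 1) * ∑ i ∈ Finset.range k, ζ ^ i := by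
    have h1 : ((x : 𝓞 K) : K) = (((e⁻¹ : (𝓞 K)ˣ) : 𝓞 K) : K) ^ (k - 1) * ((g : 𝓞 K) : K) := by
      have h2 : (x : 𝓞 K) = ((e⁻¹ : (𝓞 K)ˣ) : 𝓞 K) ^ (k - 1) * (g : 𝓞 K) := by
        show (((e⁻¹) ^ (k - 1) * g : (𝓞 K)ˣ) : 𝓞 K) = _
        rw [Units.val_mul, Units.val_pow_eq_pow_val]
      rw [h2]
      push_cast
      rfl
    rw [h1, hgK, heK']
  generalize hηd : ζ ^ (t + 1) = η at *
  have hgeo : (∑ i ∈ Finset.range k, ζ ^ i) * (1 - ζ) = 1 - ζ ^ k := by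
    have := geom_sum_mul ζ k
    linear_combination -this
  have hζ1 : (1 : K) - ζ ≠ 0 := by
    intro h0
    have : ζ = 1 := by linear_combination -h0
    exact hζ.ne_one (by omega) this
  have hk1 : k = (k - 1) + 1 := by omega
  generalize hSd : (∑ i ∈ Finset.range k, ζ ^ i) = S at *
  have hηinv : (η⁻¹) ^ (k - 1) * η ^ (k - 1) = 1 := by
    rw [← mul_pow, inv_mul_cancel₀ hη0, one_pow]
  -- the square
  have hsquare : ((x : 𝓞 K) : K) ^ 2 * ((1 - ζ) * (1 - ζ⁻¹)) = (1 - ζ ^ k) * (1 - (ζ⁻¹) ^ k) := by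
    rw [hx]
    have h1 : ((η⁻¹) ^ (k - 1)) ^ 2 = (ζ⁻¹) ^ (k - 1) := by
      rw [← pow_mul, mul_comm, pow_mul, inv_pow, hη2]
    have h2 : (1 : K) - ζ⁻¹ = -ζ⁻¹ * (1 - ζ) := by
      field_simp
      ring
    have h3 : (1 : K) - (ζ⁻¹) ^ k = -(ζ⁻¹) ^ k * (1 - ζ ^ k) := by
      have h4 : (ζ⁻¹) ^ k * ζ ^ k = 1 := by
        rw [← mul_pow, inv_mul_cancel₀ hζ0, one_pow]
      linear_combination -h4
    have h5 : (ζ⁻¹) ^ k = (ζ⁻¹) ^ (k - 1) * ζ⁻¹ := by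
      conv_lhs => rw [hk1]
      rw [pow_succ]
    rw [h3, ← hgeo, h2, mul_pow, h1, h5]
    ring
  -- complex conjugation
  have hcζ : IsCMField.complexConj K ζ = ζ⁻¹ := Xi_conj (by omega) hζf
  have hcη : IsCMField.complexConj K η = η⁻¹ := Xi_conj (by omega) hηf
  have hcx : IsCMField.complexConj K ((x : 𝓞 K) : K) = ((x : 𝓞 K) : K) := by
    have h1 : IsCMField.complexConj K S * (1 - ζ⁻¹) = 1 - (ζ⁻¹) ^ k := by
      have := congrArg (IsCMField.complexConj K) hgeo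
      rw [map_mul, map_sub, map_one, hcζ, map_sub, map_one, map_pow, hcζ] at this
      exact this
    have h2 : (1 : K) - ζ⁻¹ ≠ 0 := by
      intro h0
      apply hζ1
      have h3 : ζ⁻¹ = 1 := by linear_combination -h0
      rw [inv_eq_one.mp h3, sub_self]
    rw [hx, map_mul, map_pow, map_inv₀, hcη, inv_inv]
    apply mul_right_cancel₀ h2
    rw [mul_assoc, h1]
    have h4 : (1 : K) - ζ⁻¹ = -ζ⁻¹ * (1 - ζ) := by
      field_simp
      ring
    have h5 : (η⁻¹) ^ (k - 1) * S * (1 - ζ⁻¹) = -((η⁻¹) ^ (k - 1) * ζ⁻¹ * (1 - ζ ^ k)) := by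
      rw [h4]
      linear_combination (-(η⁻¹) ^ (k - 1) * ζ⁻¹) * hgeo
    rw [h5]
    have h6 : (ζ⁻¹) ^ k = (η⁻¹) ^ (k - 1) * (η⁻¹) ^ (k - 1) * ζ⁻¹ := by
      conv_lhs => rw [hk1]
      rw [pow_succ, ← mul_pow]
      congr 2
      rw [← mul_inv, ← pow_two, hη2]
    have h7 : (η⁻¹) ^ (k - 1) * ζ⁻¹ * ζ ^ k = η ^ (k - 1) := by
      have h8 : ζ ^ k = η ^ (k - 1) * η ^ (k - 1) * ζ := by
        conv_lhs => rw [hk1]
        rw [pow_succ, ← mul_pow, ← pow_two, hη2]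
      rw [h8]
      have h9 : ζ⁻¹ * ζ = 1 := inv_mul_cancel₀ hζ0
      linear_combination (η ^ (k - 1) * (ζ⁻¹ * ζ)) * hηinv + η ^ (k - 1) * h9
    have h10 : η ^ (k - 1) * (ζ⁻¹) ^ k = (η⁻¹) ^ (k - 1) * ζ⁻¹ := by
      rw [h6]
      linear_combination ((η⁻¹) ^ (k - 1) * ζ⁻¹) * hηinv
    linear_combination -h10 - h7
  obtain ⟨v, hv⟩ := (IsCMField.Units.complexConj_eq_self_iff (K := K) x).mp hcx
  refine ⟨Units.map (RingOfIntegers.mapRingEquiv (CMExtension.equivMaximalRealSubfield F K).symm).toMonoidHom v, ?_⟩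
  have hfin : algebraMap F K (((Units.map (RingOfIntegers.mapRingEquiv
      (CMExtension.equivMaximalRealSubfield F K).symm).toMonoidHom v : (𝓞 F)ˣ) : 𝓞 F) : F) = ((x : 𝓞 K) : K) := by
    refine Eq.trans ?_ hv
    exact CMExtension.algebraMap_equivMaximalRealSubfield_symm_apply F K ((v : 𝓞 (maximalRealSubfield K)) : maximalRealSubfield K)
  rw [hfin]
  exact hsquare

end H86CN
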