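import Pool.Agent.H86.CN.QCh
import Pool.Agent.H86.CN.Plc
import Pool.Agent.H86.CN.Xi
import Pool.Agent.H86.CN.Abs
import Pool.Agent.H86.CN.Reg
import Pool.Agent.H86.CN.Idx
import Pool.Agent.H86.CN.Dis
import Pool.Agent.H73.WT.Fab

/-!
# Asm: the class number of the real subfield and the index of the cyclotomic units (PI helper86)

`p` odd prime, `K` the `p^(n+1)`-th cyclotomic field, `F` its real subfield (any model), `ζ` any primitive `p^(n+1)`-th root of unity of `K`, `Cy F K ζ f = {ε ∈ (𝓞 F)ˣ | ε² ∈ ⟨(2 - c_u)/(2 - c_1)⟩}`. Then `p^b h(F)² = p^a [(𝓞 F)ˣ : Cy]²`, in particular the index is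
finite and `h(F)`, `[(𝓞 F)ˣ : Cy]` have the same `q`-adic valuation for every prime `q ≠ p`.
-/

set_option autoImplicit false

open NumberField Finset

namespace H86CN

theorem Asm_fin (G : Type) [CommGroup G] [Finite G] : Finite (G →* ℂˣ) := by
  have : NeZero (Nat.card G) := ⟨Nat.card_pos.ne'⟩
  refine Finite.of_injective (fun ψ : G →* ℂˣ => fun g : G => (⟨ψ g, by
    rw [mem_rootsOfUnity, ← map_pow, pow_card_eq_one', map_one]⟩ : rootsOfUnity (Nat.card G) ℂ)) ?_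
  intro ψ ψ' h
  refine MonoidHom.ext fun g => ?_
  exact congrArg Subtype.val (congrFun h g)

theorem Asm_card (f : ℕ) [NeZero f] (F : Type*) [Field F] [NumberField F] [IsTotallyReal F] (e : Qf f ≃ InfinitePlace F)
    [Fintype (Qf f)] : Fintype.card (Qf f) = Module.finrank ℚ F := by
  rw [Fintype.card_congr e, InfinitePlace.card_eq_nrRealPlaces_add_nrComplexPlaces, IsTotallyReal.nrComplexPlaces_eq_zero, add_zero,
    IsTotallyReal.finrank]

open Classical in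
/-- the class number formula with an embedding such that `ζ ↦ exp(2πi/f)` -/
theorem asm0 (p n : ℕ) [hp : Fact p.Prime] (h2 : p ≠ 2) (K F : Type*) [Field K] [NumberField K] [IsCyclotomicExtension {p ^ (n + 1)} ℚ K]
    [Field F] [NumberField F] [Algebra F K] [IsTotallyReal F] [Algebra.IsQuadraticExtension F K] (ζ : K)
    (hζ : IsPrimitiveRoot ζ (p ^ (n + 1))) (φ : K →+* ℂ) (hφ : φ ζ = Complex.exp (2 * Real.pi * Complex.I / (p ^ (n + 1) : ℕ))) :
    ∃ a b : ℕ, p ^ b * classNumber F ^ 2 = p ^ a * (Cy F K ζ (p ^ (n + 1))).index ^ 2 := by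
  obtain ⟨f, hf⟩ : ∃ f : ℕ, f = p ^ (n + 1) := ⟨_, rfl⟩
  have hp3 : 3 ≤ p := by
    have := hp.out.two_le
    omega
  have hf3 : 3 ≤ f := by
    rw [hf]
    exact hp3.trans (Nat.le_self_pow (by omega) p)
  have : NeZero f := ⟨by omega⟩
  have hodd : Odd f := by
    rw [hf]
    exact (hp.out.odd_of_ne_two h2).pow
  have : NeZero (p ^ (n + 1)) := ⟨by rw [← hf]; omega⟩
  have : Fintype (Qf (p ^ (n + 1))) := Fintype.ofFinite _
  have hfin : Finite (Qf (p ^ (n + 1)) →* ℂˣ) := Asm_fin (Qf (p ^ (n + 1)))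
  have : Fintype (Qf (p ^ (n + 1)) →* ℂˣ) := Fintype.ofFinite _
  rw [hf] at hf3 hodd
  obtain ⟨e, he⟩ := plc (p ^ (n + 1)) (by omega) K F φ
  have hξ := fun u => xi (p ^ (n + 1)) (by omega) hodd K F ζ hζ u
  choose ξ hξ using hξ
  have hlog := fun u b => logxi (p ^ (n + 1)) (by omega) K F ζ hζ φ hφ e he u b (ξ u) (hξ u)
  obtain ⟨fam, g1, g2, g3⟩ := reg (p ^ (n + 1)) F e ξ hlog
  have hidx := idx (p ^ (n + 1)) (by omega) K F ζ hζ ξ hξ fam g1 g2
  have hfab := WTA.fab p n F K h2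
  have hqch := qch (f := p ^ (n + 1)) (by omega)
  obtain ⟨a, ha⟩ := dis p n K F
  obtain ⟨b, hb⟩ := con p n (WTA.evn (p ^ (n + 1)))
  have hcard := Asm_card (p ^ (n + 1)) F e
  rw [hcard] at hqch
  have hLS : ∏ χ ∈ WTA.evn (p ^ (n + 1)), ‖WTA.LS χ‖ = 2 ^ (Module.finrank ℚ F - 1) * Units.regOfFamily fam := by
    rw [g3, ← hqch]
    refine Finset.prod_congr ?_ fun χ _ => rfl
    ext χ
    rw [WTA.mem_evn, Finset.mem_filter]
    simp
  rw [hLS] at hfab
  have hR := Units.regulator_pos F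
  have hidx2 : Units.regOfFamily fam = ((Cy F K ζ (p ^ (n + 1))).index : ℝ) * Units.regulator F := by
    rw [hidx]
    field_simp
  rw [hidx2] at hfab
  have hcon : (∏ χ ∈ WTA.evn (p ^ (n + 1)), Real.sqrt χ.conductor) = Real.sqrt ((p : ℝ) ^ b) := by
    have h1 : (∏ χ ∈ WTA.evn (p ^ (n + 1)), (χ.conductor : ℝ)) = (p : ℝ) ^ b := by
      exact_mod_cast congrArg (fun m : ℕ => (m : ℝ)) hb
    rw [← h1]
    symm
    exact Real.sqrt_prod _ fun χ _ => Nat.cast_nonneg _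
  have hdis : |(discr F : ℝ)| = (p : ℝ) ^ a := by
    have h1 : ((discr F).natAbs : ℝ) = (p : ℝ) ^ a := by rw [ha]; push_cast; rfl
    rw [← h1, Nat.cast_natAbs]
    push_cast
    rfl
  rw [hcon, hdis] at hfab
  have h2p : (0 : ℝ) < 2 ^ (Module.finrank ℚ F - 1) := by positivity
  have h3 : (classNumber F : ℝ) * Real.sqrt ((p : ℝ) ^ b) = Real.sqrt ((p : ℝ) ^ a) * ((Cy F K ζ (p ^ (n + 1))).index : ℝ) := by
    have h4 : (2 ^ (Module.finrank ℚ F - 1) * Units.regulator F) * ((classNumber F : ℝ) * Real.sqrt ((p : ℝ) ^ b)) =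
        (2 ^ (Module.finrank ℚ F - 1) * Units.regulator F) *
          (Real.sqrt ((p : ℝ) ^ a) * ((Cy F K ζ (p ^ (n + 1))).index : ℝ)) := by
      linear_combination hfab
    exact mul_left_cancel₀ (mul_pos h2p hR).ne' h4
  refine ⟨a, b, ?_⟩
  have h5 := congrArg (fun x : ℝ => x ^ 2) h3
  simp only [mul_pow] at h5
  rw [Real.sq_sqrt (by positivity), Real.sq_sqrt (by positivity)] at h5
  have h6 : (p : ℝ) ^ b * (classNumber F : ℝ) ^ 2 = (p : ℝ) ^ a * ((Cy F K ζ (p ^ (n + 1))).index : ℝ) ^ 2 := by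
    rw [mul_comm]
    exact h5
  exact_mod_cast h6

/-- for every primitive root `ζ` there is an embedding with `ζ ↦ exp(2πi/f)` -/
theorem emb' (f : ℕ) [NeZero f] (K : Type*) [Field K] [NumberField K] [IsCyclotomicExtension {f} ℚ K] (ζ : K)
    (hζ : IsPrimitiveRoot ζ f) : ∃ φ : K →+* ℂ, φ ζ = Complex.exp (2 * Real.pi * Complex.I / f) := by
  obtain ⟨φ, z, hz, hφ⟩ := emb f K
  obtain ⟨j, hj, hzj⟩ := hζ.eq_pow_of_pow_eq_one hz.pow_eq_one
  have hcop : j.Coprime f := by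
    rw [← hζ.pow_iff_coprime (NeZero.pos f), hzj]
    exact hz
  refine ⟨φ.comp (((IsCyclotomicExtension.Rat.galEquivZMod f K).symm (ZMod.unitOfCoprime j hcop) : Gal(K/ℚ)) : K →+* K), ?_⟩
  rw [RingHom.comp_apply]
  have h1 := IsCyclotomicExtension.Rat.galEquivZMod_apply_of_pow_eq f K
    ((IsCyclotomicExtension.Rat.galEquivZMod f K).symm (ZMod.unitOfCoprime j hcop)) hζ.pow_eq_one
  rw [MulEquiv.apply_symm_apply, ZMod.coe_unitOfCoprime, ZMod.val_natCast, Nat.mod_eq_of_lt hj, hzj] at h1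
  rw [← hφ, ← h1]
  rfl

/-- THE CLASS NUMBER FORMULA (prime to `p`). -/
theorem cnf0 (p n : ℕ) [hp : Fact p.Prime] (h2 : p ≠ 2) (K F : Type*) [Field K] [NumberField K] [IsCyclotomicExtension {p ^ (n + 1)} ℚ K]
    [Field F] [NumberField F] [Algebra F K] [IsTotallyReal F] [Algebra.IsQuadraticExtension F K] (ζ : K)
    (hζ : IsPrimitiveRoot ζ (p ^ (n + 1))) :
    ∃ a b : ℕ, p ^ b * classNumber F ^ 2 = p ^ a * (Cy F K ζ (p ^ (n + 1))).index ^ 2 := by
  have : NeZero (p ^ (n + 1)) := ⟨pow_ne_zero _ hp.out.ne_zero⟩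
  obtain ⟨φ, hφ⟩ := emb' (p ^ (n + 1)) K ζ hζ
  exact asm0 p n h2 K F ζ hζ φ hφ

theorem cnf (p n : ℕ) [hp : Fact p.Prime] (h2 : p ≠ 2) (K F : Type*) [Field K] [NumberField K] [IsCyclotomicExtension {p ^ (n + 1)} ℚ K]
    [Field F] [NumberField F] [Algebra F K] [IsTotallyReal F] [Algebra.IsQuadraticExtension F K] (ζ : K)
    (hζ : IsPrimitiveRoot ζ (p ^ (n + 1))) :
    (Cy F K ζ (p ^ (n + 1))).index ≠ 0 ∧
      ∀ q : ℕ, q.Prime → q ≠ p → padicValNat q (classNumber F) = padicValNat q (Cy F K ζ (p ^ (n + 1))).index := by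
  obtain ⟨a, b, h⟩ := cnf0 p n h2 K F ζ hζ
  have hh : classNumber F ≠ 0 := (classNumber_pos F).ne'
  have hp0 : p ≠ 0 := hp.out.ne_zero
  have hi : (Cy F K ζ (p ^ (n + 1))).index ≠ 0 := by
    intro h0
    rw [h0, zero_pow two_ne_zero, mul_zero, mul_eq_zero] at h
    rcases h with h | h
    · exact pow_ne_zero _ hp0 h
    · exact hh (pow_eq_zero_iff two_ne_zero |>.1 h)
  refine ⟨hi, fun q hq hqp => ?_⟩
  have : Fact q.Prime := ⟨hq⟩
  have h1 := congrArg (padicValNat q) h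
  have h3 : ∀ k : ℕ, padicValNat q (p ^ k) = 0 := fun k => by
    rw [padicValNat.pow, padicValNat_primes hqp, mul_zero]
  rw [padicValNat.mul (pow_ne_zero _ hp0) (pow_ne_zero _ hh), padicValNat.mul (pow_ne_zero _ hp0) (pow_ne_zero _ hi), h3, h3,
    padicValNat.pow, padicValNat.pow] at h1
  omega

end H86CN
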