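import Mathlib

/-!
# Class number formula for the real subfield of the `p^(n+1)`-th cyclotomic field: definitions (PI helper86)

Project MP_78d38b_WT (helper5). Analytic half: helper73, `Pool/Agent/H73/WT`. Here: group determinant, cyclotomic units, regulator, index.
-/

set_option autoImplicit false

open NumberField

namespace H86CN

/-- `(Z/f)ˣ/{1, -1}` -/
abbrev Qf (f : ℕ) : Type := (ZMod f)ˣ ⧸ Subgroup.zpowers (-1 : (ZMod f)ˣ)

/-- `log |1 - exp(2 π i a/f)|` -/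
noncomputable def gf (f : ℕ) (a : (ZMod f)ˣ) : ℝ :=
  Real.log ‖1 - Complex.exp (2 * Real.pi * Complex.I * (a.val.val : ℂ) / (f : ℂ))‖

/-- `gf` on the quotient (`gf f (-a) = gf f a`, see `gf_neg` in `Pool/Agent/H86/CN/Gf.lean`) -/
noncomputable def gq (f : ℕ) (q : Qf f) : ℝ := gf f q.out

/-- `2 - c_u = (1 - ζ^u)(1 - ζ^(-u))` -/
noncomputable def sq2 {K : Type*} [Field K] (ζ : K) {f : ℕ} (u : (ZMod f)ˣ) : K := (1 - ζ ^ u.val.val) * (1 - (ζ⁻¹) ^ u.val.val)

/-- the cyclotomic units of `F`: all `ε` whose square is in the group generated by the quotients `(2 - c_u)/(2 - c_1)` -/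
def Cy (F K : Type*) [Field F] [Field K] [Algebra F K] (ζ : K) (f : ℕ) : Subgroup (𝓞 F)ˣ :=
  (Subgroup.closure {v : (𝓞 F)ˣ | ∃ u : (ZMod f)ˣ, algebraMap F K ((v : 𝓞 F) : F) * sq2 ζ (1 : (ZMod f)ˣ) = sq2 ζ u}).comap
    (powMonoidHom 2)

end H86CN
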