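import Pool.Agent.H86.CN.Df

/-!
# Gf: elementary facts on `gf`
-/

set_option autoImplicit false

open NumberField

namespace H86CN

theorem gf_nat {f : ℕ} [NeZero f] (a : (ZMod f)ˣ) (m : ℕ) (h : (m : ZMod f) = a) :
    Real.log ‖1 - Complex.exp (2 * Real.pi * Complex.I * (m : ℂ) / (f : ℂ))‖ = gf f a := by
  have hf : (f : ℂ) ≠ 0 := by exact_mod_cast NeZero.ne f
  unfold gf
  congr 2
  congr 1
  rw [Complex.exp_eq_exp_iff_exists_int]
  have h1 : (a.val.val : ZMod f) = (m : ZMod f) := by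
    rw [ZMod.natCast_val, ZMod.cast_id', id, h]
  have h2 : ((m : ℤ) : ZMod f) = ((a.val.val : ℤ) : ZMod f) := by
    push_cast
    exact h1.symm
  rw [ZMod.intCast_eq_intCast_iff_dvd_sub] at h2
  obtain ⟨k, hk⟩ := h2
  refine ⟨-k, ?_⟩
  have h3 : (m : ℂ) = (a.val.val : ℂ) - (f : ℂ) * (k : ℂ) := by
    have : (a.val.val : ℤ) - (m : ℤ) = f * k := hk
    have h4 : ((a.val.val : ℤ) : ℂ) - ((m : ℤ) : ℂ) = (f : ℂ) * (k : ℂ) := by exact_mod_cast congrArg (fun z : ℤ => (z : ℂ)) this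
    push_cast at h4
    linear_combination -h4
  rw [h3]
  field_simp
  push_cast
  ring

theorem gf_neg {f : ℕ} [NeZero f] (a : (ZMod f)ˣ) : gf f (-a) = gf f a := by
  have hf0 : 0 < f := NeZero.pos f
  have hf : (f : ℂ) ≠ 0 := by exact_mod_cast NeZero.ne f
  have hlt : a.val.val < f := ZMod.val_lt _
  have h1 : ((f - a.val.val : ℕ) : ZMod f) = ((-a : (ZMod f)ˣ) : ZMod f) := by
    rw [Nat.cast_sub hlt.le, ZMod.natCast_self, ZMod.natCast_val, ZMod.cast_id', id, zero_sub, Units.val_neg]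
  rw [← gf_nat (-a) (f - a.val.val) h1]
  unfold gf
  congr 1
  rw [Nat.cast_sub hlt.le]
  have h2 : Complex.exp (2 * Real.pi * Complex.I * ((f : ℂ) - (a.val.val : ℂ)) / (f : ℂ)) =
      (starRingEnd ℂ) (Complex.exp (2 * Real.pi * Complex.I * (a.val.val : ℂ) / (f : ℂ))) := by
    rw [← Complex.exp_conj]
    simp only [map_div₀, map_mul, Complex.conj_I, Complex.conj_ofReal, map_ofNat, map_natCast]
    rw [Complex.exp_eq_exp_iff_exists_int]
    refine ⟨1, ?_⟩
    field_simp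
    push_cast
    ring
  rw [h2]
  have h3 : (1 : ℂ) - (starRingEnd ℂ) (Complex.exp (2 * Real.pi * Complex.I * (a.val.val : ℂ) / (f : ℂ))) =
      (starRingEnd ℂ) (1 - Complex.exp (2 * Real.pi * Complex.I * (a.val.val : ℂ) / (f : ℂ))) := by
    rw [map_sub, map_one]
  rw [h3, Complex.norm_conj]

theorem gq_mk {f : ℕ} [NeZero f] (a : (ZMod f)ˣ) : gq f (a : Qf f) = gf f a := by
  unfold gq
  have h : ((a : Qf f).out)⁻¹ * a ∈ Subgroup.zpowers (-1 : (ZMod f)ˣ) := by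
    rw [← QuotientGroup.eq, QuotientGroup.out_eq']
  obtain ⟨k, hk⟩ := Subgroup.mem_zpowers_iff.1 h
  rcases Int.even_or_odd k with hk2 | hk2
  · rw [hk2.neg_one_zpow] at hk
    rw [eq_comm, inv_mul_eq_one] at hk
    rw [hk]
  · rw [hk2.neg_one_zpow] at hk
    have h2 : a = -(a : Qf f).out := by
      rw [eq_inv_mul_iff_mul_eq] at hk
      exact hk.symm.trans (mul_neg_one _)
    exact (gf_neg _).symm.trans (congrArg (gf f) h2.symm)

end H86CN
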