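import Pool.Agent.H86.CN.Gf

/-!
# QCh: even Dirichlet characters and characters of the quotient

Let `S χ = ∑_{a : (ZMod f)ˣ} χ(a) gf(a)`. Even characters `χ` of level `f` correspond to the homomorphisms `ψ : Qf f →* ℂˣ`: `χ.toUnitHom` (`MulChar.toUnitHom`, `MulChar.equivToUnitHom`) is trivial on `-1` (`DirichletCharacter.Even`: `χ (-1) = 1`), hence on
`Subgroup.zpowers (-1)`, and factors (`QuotientGroup.lift`); conversely `MulChar.ofUnitHom (ψ.comp (QuotientGroup.mk' _))`. `χ = 1` iff `ψ = 1`. `S χ = 2 ∑_q ψ(q) gq(q)`: every class of `Qf f` has exactly two elements `a`, `-a` (`-1 ≠ 1` in `(ZMod f)ˣ` as `f > 2`; the subgroup has two elements,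
`Finset.sum_fiberwise` or `Subgroup`/`QuotientGroup` counting; `gq_mk`). So `‖S χ‖ = 2 ‖∑_q ψ gq‖`; the number of `ψ ≠ 1` is `card (Qf f) - 1` (`CommGroup.card_monoidHom_of_hasEnoughRootsOfUnity`). Use `Finset.prod_bij` and `Finset.prod_const`.
-/

set_option autoImplicit false

open Finset

namespace H86CN

open Classical in
theorem QCh_fib {f : ℕ} [NeZero f] (hf : 2 < f) (q : Qf f) :
    (univ.filter (fun a : (ZMod f)ˣ => (a : Qf f) = q)).card = 2 := by
  have h1 : (univ.filter (fun a : (ZMod f)ˣ => (a : Qf f) = q)).card =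
      (univ.filter (fun a : (ZMod f)ˣ => (a : Qf f) = 1)).card := by
    have := MonoidHom.card_fiber_eq_of_mem_range (QuotientGroup.mk' (Subgroup.zpowers (-1 : (ZMod f)ˣ))) (x := q) (y := 1)
      (QuotientGroup.mk'_surjective _ q) (QuotientGroup.mk'_surjective _ 1)
    convert this using 2 <;> (ext a; rw [mem_filter, mem_filter, QuotientGroup.mk'_apply])
  rw [h1]
  have : Fact (2 < f) := ⟨hf⟩
  have hne : (-1 : (ZMod f)ˣ) ≠ 1 := by
    intro h
    have h2 : ((-1 : (ZMod f)ˣ) : ZMod f) = ((1 : (ZMod f)ˣ) : ZMod f) := by rw [h]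
    rw [Units.val_neg, Units.val_one] at h2
    exact ZMod.neg_one_ne_one h2
  have h2 : (univ.filter (fun a : (ZMod f)ˣ => (a : Qf f) = 1)) = {1, -1} := by
    ext a
    simp only [mem_filter, mem_univ, true_and, mem_insert, mem_singleton]
    rw [QuotientGroup.eq_one_iff, Subgroup.mem_zpowers_iff]
    constructor
    · rintro ⟨k, rfl⟩
      rcases Int.even_or_odd k with hk | hk
      · left; exact hk.neg_one_zpow
      · right; exact hk.neg_one_zpow
    · rintro (rfl | rfl)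
      · exact ⟨0, zpow_zero _⟩
      · exact ⟨1, zpow_one _⟩
  rw [h2, card_pair hne.symm]

open Classical in
theorem QCh_sum {f : ℕ} [NeZero f] (hf : 2 < f) [Fintype (Qf f)] (F : Qf f → ℂ) :
    ∑ a : (ZMod f)ˣ, F (a : Qf f) = 2 * ∑ q, F q := by
  rw [← Finset.sum_fiberwise univ (fun a : (ZMod f)ˣ => (a : Qf f)), Finset.mul_sum]
  refine Finset.sum_congr rfl fun q _ => ?_
  rw [Finset.sum_congr rfl (g := fun _ => F q) (fun a ha => by rw [(mem_filter.1 ha).2]), Finset.sum_const, QCh_fib hf q,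
    nsmul_eq_mul]
  norm_num

theorem QCh_even {f : ℕ} [NeZero f] (ψ : Qf f →* ℂˣ) :
    DirichletCharacter.Even (MulChar.ofUnitHom (ψ.comp (QuotientGroup.mk' _)) : DirichletCharacter ℂ f) := by
  unfold DirichletCharacter.Even
  have h : ((-1 : ZMod f)) = ((-1 : (ZMod f)ˣ) : ZMod f) := by rw [Units.val_neg, Units.val_one]
  rw [h, MulChar.ofUnitHom_coe]
  have h2 : (QuotientGroup.mk' (Subgroup.zpowers (-1 : (ZMod f)ˣ))) (-1) = 1 := by
    rw [QuotientGroup.mk'_apply, QuotientGroup.eq_one_iff]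
    exact Subgroup.mem_zpowers _
  rw [MonoidHom.comp_apply, h2, map_one, Units.val_one]

open Classical in
theorem qch {f : ℕ} [NeZero f] (hf : 2 < f) [Fintype (DirichletCharacter ℂ f)] [Fintype (Qf f)] [Fintype (Qf f →* ℂˣ)] :
    ∏ χ ∈ univ.filter (fun χ : DirichletCharacter ℂ f => χ.Even ∧ χ ≠ 1), ‖∑ a : (ZMod f)ˣ, χ a * (gf f a : ℂ)‖ =
      2 ^ (Fintype.card (Qf f) - 1) *
        ∏ ψ ∈ univ.filter (fun ψ : Qf f →* ℂˣ => ψ ≠ 1), ‖∑ q, ((ψ q : ℂˣ) : ℂ) * (gq f q : ℂ)‖ := by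
  have hcard : (univ.filter (fun ψ : Qf f →* ℂˣ => ψ ≠ 1)).card = Fintype.card (Qf f) - 1 := by
    rw [Finset.filter_ne', Finset.card_erase_of_mem (mem_univ _), Finset.card_univ]
    congr 1
    have h0 : Monoid.exponent (Qf f) ≠ 0 := by
      have := @Monoid.exponent_ne_zero_of_finite (Qf f) _ _
      exact this
    have : NeZero (Monoid.exponent (Qf f)) := ⟨h0⟩
    have := CommGroup.card_monoidHom_of_hasEnoughRootsOfUnity (Qf f) ℂ
    rw [Nat.card_eq_fintype_card, Nat.card_eq_fintype_card] at this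
    exact this
  rw [← hcard, ← Finset.prod_const, ← Finset.prod_mul_distrib]
  symm
  refine Finset.prod_bij (fun ψ _ => (MulChar.ofUnitHom (ψ.comp (QuotientGroup.mk' _)) : DirichletCharacter ℂ f)) ?_ ?_ ?_ ?_
  · intro ψ hψ
    rw [mem_filter] at hψ ⊢
    refine ⟨mem_univ _, QCh_even ψ, fun h => hψ.2 ?_⟩
    apply QuotientGroup.monoidHom_ext
    ext a
    have h2 := congrArg (fun χ : DirichletCharacter ℂ f => χ (a : ZMod f)) h
    simp only [MulChar.ofUnitHom_coe, MulChar.one_apply_coe] at h2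
    rw [h2]
    simp
  · intro ψ _ φ _ h
    apply QuotientGroup.monoidHom_ext
    rw [MulChar.ofUnitHom_eq, MulChar.ofUnitHom_eq] at h
    exact MulChar.equivToUnitHom.symm.injective h
  · intro χ hχ
    rw [mem_filter] at hχ
    have hk : Subgroup.zpowers (-1 : (ZMod f)ˣ) ≤ χ.toUnitHom.ker := by
      rw [Subgroup.zpowers_le, MonoidHom.mem_ker, ← Units.val_inj, MulChar.coe_toUnitHom, Units.val_neg, Units.val_one, Units.val_one]
      exact hχ.2.1
    have hcomp : (QuotientGroup.lift (Subgroup.zpowers (-1 : (ZMod f)ˣ)) χ.toUnitHom hk).comp (QuotientGroup.mk' _) = χ.toUnitHom := by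
      ext a
      simp
    have hχ2 : (MulChar.ofUnitHom χ.toUnitHom : DirichletCharacter ℂ f) = χ := by
      rw [MulChar.ofUnitHom_eq, MulChar.toUnitHom_eq, Equiv.symm_apply_apply]
    refine ⟨QuotientGroup.lift (Subgroup.zpowers (-1 : (ZMod f)ˣ)) χ.toUnitHom hk, ?_, ?_⟩
    · rw [mem_filter]
      refine ⟨mem_univ _, fun h => hχ.2.2 ?_⟩
      rw [← hχ2, ← hcomp, h]
      ext a
      rw [MulChar.ofUnitHom_coe]
      simp
    · change (MulChar.ofUnitHom ((QuotientGroup.lift (Subgroup.zpowers (-1 : (ZMod f)ˣ)) χ.toUnitHom hk).comp (QuotientGroup.mk' _)) : DirichletCharacter ℂ f) = χ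
      rw [hcomp, hχ2]
  · intro ψ _
    have h := QCh_sum hf (fun q => ((ψ q : ℂˣ) : ℂ) * (gq f q : ℂ))
    have h2 : ∑ a : (ZMod f)ˣ, (MulChar.ofUnitHom (ψ.comp (QuotientGroup.mk' _)) : DirichletCharacter ℂ f) a * (gf f a : ℂ) =
        ∑ a : (ZMod f)ˣ, ((ψ (a : Qf f) : ℂˣ) : ℂ) * (gq f (a : Qf f) : ℂ) := by
      refine Finset.sum_congr rfl fun a _ => ?_
      rw [MulChar.ofUnitHom_coe, gq_mk]
      rfl
    rw [h2, h, norm_mul]
    norm_num

end H86CN
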